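import Mathlib
import Pool.Agent.H74.FAC.Surf
import Pool.Agent.FPX.EFIN

open Manifold
open scoped ENNReal

namespace Pool.Agent.Results.MP_ecf18f_gt.FillingArea

open Pool.Agent.H74.Surf

/-- **Gromov's filling area conjecture**: every compact orientable smooth Riemannian surface `M` with boundary
(with its path metric) that isometrically fills the circle of length `2π` has area at least `2π`. -/
theorem result (M : Type) [MetricSpace M] [CompactSpace M] [ChartedSpace (EuclideanHalfSpace 2) M]
    [RiemannianSpace (𝓡∂ 2) M] (horient : Orientable (𝓡∂ 2) M)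
    (φ : S1 → M) (hφ : IsometricFilling (𝓡∂ 2) φ) :
    ENNReal.ofReal (2 * Real.pi) ≤ area M :=
  Pool.Agent.FPX.EFIN.two_pi M horient φ hφ

end Pool.Agent.Results.MP_ecf18f_gt.FillingArea
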